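import Pool.Agent.Y773.HG.FeK
import Pool.Agent.Y149.AR.Stm

/-!
# The functional equation of everywhere unramified characters, the trivial one included
-/

set_option autoImplicit false
set_option linter.unusedSectionVars false

open NumberField Complex Filter Topology Set MeasureTheory

namespace Pool.Agent.Y773.G.H759

open Pool.Agent.Y149.AR (ind IsUnr S_FT S_UNR)

section

variable {K : Type} [Field K] [NumberField K] {e : InfinitePlace K → ℕ} {ψ : Ideal (𝓞 K) →*₀ ℂ}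

lemma unr_norm_one (h : IsUnr e ψ) {𝔞 : Ideal (𝓞 K)} (h𝔞 : 𝔞 ≠ ⊥) : ‖ψ 𝔞‖ = 1 := by
  obtain ⟨k, x, hk, hx0, -, hx⟩ := exists_pow (𝔪 := (⊤ : Ideal (𝓞 K))) top_ne_bot h𝔞
    (by rw [Ideal.isCoprime_iff_sup_eq, sup_top_eq])
  have h1 := h.sig x hx0
  rw [← hx, map_pow] at h1
  have h2 := congrArg norm h1
  rw [norm_pow, norm_sg (by exact_mod_cast hx0)] at h2
  exact (pow_eq_one_iff_of_nonneg (norm_nonneg _) hk.ne').mp h2

lemma unr_norm_le (h : IsUnr e ψ) (𝔞 : Ideal (𝓞 K)) : ‖ψ 𝔞‖ ≤ 1 := by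
  by_cases h0 : 𝔞 = ⊥
  · rw [h0, ← Ideal.zero_eq_bot, map_zero, norm_zero]
    norm_num
  · exact (unr_norm_one h h0).le

/-- the function of one class -/
noncomputable def ph (ψ : Ideal (𝓞 K) →*₀ ℂ) (𝔟 : Ideal (𝓞 K)) (x : 𝓞 K) : ℂ :=
  (ψ 𝔟)⁻¹ * ind 𝔟 x

lemma ph_bdd (h : IsUnr e ψ) {𝔟 : Ideal (𝓞 K)} (h𝔟 : 𝔟 ≠ ⊥) (x : 𝓞 K) : ‖ph ψ 𝔟 x‖ ≤ 1 := by
  unfold ph ind
  rw [norm_mul, norm_inv, unr_norm_one h h𝔟, inv_one, one_mul]
  split_ifs <;> simp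

lemma ph_eqv (h : IsUnr e ψ) (𝔟 : Ideal (𝓞 K)) : Eqv e (ph ψ 𝔟) := by
  intro u x
  have h1 : sg e ((u : 𝓞 K) : K) = 1 := by
    rw [← h.sig _ u.ne_zero, Ideal.span_singleton_eq_top.mpr u.isUnit, ← Ideal.one_eq_top, map_one]
  have h2 : (u : 𝓞 K) * x ∈ 𝔟 ↔ x ∈ 𝔟 := Ideal.unit_mul_mem_iff_mem 𝔟 u.isUnit
  rw [h1, one_mul]
  unfold ph ind
  by_cases hx : x ∈ 𝔟
  · rw [if_pos hx, if_pos (h2.2 hx)]
  · rw [if_neg hx, if_neg (fun h3 => hx (h2.1 h3))]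

lemma ph_per {𝔟 : Ideal (𝓞 K)} {m : ℕ} (hm : (m : 𝓞 K) ∈ 𝔟) (x z : 𝓞 K) :
    ph ψ 𝔟 (x + m * z) = ph ψ 𝔟 x := by
  have h2 : x + m * z ∈ 𝔟 ↔ x ∈ 𝔟 :=
    Ideal.add_mem_iff_left 𝔟 (Ideal.mul_mem_right z 𝔟 hm)
  unfold ph ind
  by_cases hx : x ∈ 𝔟
  · rw [if_pos hx, if_pos (h2.2 hx)]
  · rw [if_neg hx, if_neg (fun h3 => hx (h2.1 h3))]

lemma Ps_eq_rz (h : IsUnr e ψ) {𝔟 : Ideal (𝓞 K)} (h𝔟 : 𝔟 ≠ ⊥) : Ps ψ e 𝔟 = rz (ph ψ 𝔟) := by
  funext x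
  unfold rz
  split_ifs with hx
  · subst hx
    have h1 : (⊥ : Ideal (𝓞 K)) * 𝔟 = Ideal.span {(0 : 𝓞 K)} := by
      rw [Ideal.bot_mul, Ideal.span_singleton_eq_bot.mpr rfl]
    rw [Ps_of_eq h𝔟 h1, ← Ideal.zero_eq_bot, map_zero, zero_mul]
  · by_cases hxb : x ∈ 𝔟
    · obtain ⟨𝔞, h𝔞⟩ := mem_iff_exists_mul.mp hxb
      rw [Ps_of_eq h𝔟 h𝔞]
      unfold ph ind
      rw [if_pos hxb, mul_one]
      have h1 := h.sig x hx
      rw [← h𝔞, map_mul] at h1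
      have h2 := sg_sq e (x := (x : K)) (by exact_mod_cast hx)
      have h3 : ψ 𝔟 ≠ 0 := h.ne 𝔟 h𝔟
      refine eq_inv_of_mul_eq_one_left ?_
      calc ψ 𝔞 * sg e (x : K) * ψ 𝔟 = (ψ 𝔞 * ψ 𝔟) * sg e (x : K) := by ring
        _ = 1 := by rw [h1, h2]
    · rw [Ps_of_notMem hxb]
      unfold ph ind
      rw [if_neg hxb, mul_zero]

lemma unr_nice (h : IsUnr e ψ) {𝔟 : Ideal (𝓞 K)} (h𝔟 : 𝔟 ≠ ⊥) : Nice e (Ps ψ e 𝔟) := by
  rw [Ps_eq_rz h h𝔟]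
  exact rz_nice h.sig_le h.cpx (ph_bdd h h𝔟) (ph_eqv h 𝔟)

lemma FF_eq (h : IsUnr e ψ) {𝔟 : ClassGroup (𝓞 K) → Ideal (𝓞 K)} (h𝔟 : Reps 𝔟) (t : ℝ) :
    FF e 𝔟 (fun c => ph ψ (𝔟 c)) t - G00 e * ∑ c, ph ψ (𝔟 c) 0 = Ftot ψ e 𝔟 t := by
  unfold FF Ftot
  simp_rw [fun c => hf_rz h.sig_le (ph_bdd h (h𝔟.ne_bot c)) ((Ideal.absNorm (𝔟 c) : ℝ)⁻¹ * t)]
  rw [Finset.sum_add_distrib, Finset.mul_sum]
  have : ∑ c, ph ψ (𝔟 c) 0 * G00 e = ∑ c, G00 e * ph ψ (𝔟 c) 0 :=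
    Finset.sum_congr rfl fun c _ => mul_comm _ _
  rw [this, add_sub_cancel_left]
  exact Finset.sum_congr rfl fun c _ => by rw [Ps_eq_rz h (h𝔟.ne_bot c)]

lemma FT_smul (D m : ℕ) (a : ℂ) (Ψ : 𝓞 K → ℂ) (hm : 0 < m) (x : 𝓞 K) :
    FT D m (fun y => a * Ψ y) x = a * FT D m Ψ x := by
  have := finite_quot (K := K) hm
  have := Fintype.ofFinite (𝓞 K ⧸ Ideal.span {(m : 𝓞 K)})
  unfold FT
  split_ifs
  · rw [finsum_eq_sum_of_fintype, finsum_eq_sum_of_fintype, Finset.mul_sum]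
    exact Finset.sum_congr rfl fun r _ => by ring
  · rw [mul_zero]

lemma FG_eq (hFT : S_FT) (h : IsUnr e ψ) {𝔟 𝔟' : ClassGroup (𝓞 K) → Ideal (𝓞 K)}
    (h𝔟 : Reps 𝔟) (h𝔟' : Reps 𝔟') {m D : ℕ} (hm : 0 < m) (hD : 0 < D)
    (hm𝔟 : ∀ c, (m : 𝓞 K) ∈ 𝔟 c) (hDd : (D : 𝓞 K) ∈ differentIdeal ℤ (𝓞 K))
    (hid : ∀ c, 𝔟' c * (𝔟 c * differentIdeal ℤ (𝓞 K)) = Ideal.span {((m * D : ℕ) : 𝓞 K)})
    (t : ℝ) :
    FG e 𝔟 (fun c => ph ψ (𝔟 c)) m D t -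
      G00 e * ∑ c, (Ideal.absNorm (𝔟 c) : ℂ) * FT D m (ph ψ (𝔟 c)) 0 =
    (ψ (differentIdeal ℤ (𝓞 K)) * (m : ℂ) ^ (Module.finrank ℚ K)) *
      (starRingEnd ℂ) (Ftot ψ e 𝔟'
        (((Ideal.absNorm (differentIdeal ℤ (𝓞 K)) : ℕ) : ℝ)⁻¹ * t)) := by
  have h𝔡 : differentIdeal ℤ (𝓞 K) ≠ ⊥ := differentIdeal_ne_bot
  have hk0 : 0 < m * D := Nat.mul_pos hm hD
  have hFTc : ∀ c x, FT D m (ph ψ (𝔟 c)) x = (ψ (𝔟 c))⁻¹ *
      ((m : ℂ) ^ (Module.finrank ℚ K) / (Ideal.absNorm (𝔟 c) : ℂ) * ind (𝔟' c) x) := by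
    intro c x
    have h1 := FT_smul D m ((ψ (𝔟 c))⁻¹) (ind (𝔟 c)) hm x
    rw [hFT K (𝔟 c) (𝔟' c) m D hm hD (hid c) (hm𝔟 c) hDd x] at h1
    exact h1
  have hψk : ∀ c, ψ (𝔟' c) * (ψ (𝔟 c) * ψ (differentIdeal ℤ (𝓞 K))) = 1 := by
    intro c
    rw [← map_mul, ← map_mul, hid c]
    have h1 : ((m * D : ℕ) : 𝓞 K) ≠ 0 := by exact_mod_cast hk0.ne'
    rw [h.sig _ h1]
    have h2 : ((((m * D : ℕ) : 𝓞 K)) : K) = ((m * D : ℕ) : K) := map_natCast (algebraMap (𝓞 K) K) _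
    rw [h2, sg_natCast e hk0]
  have hrz : ∀ c, rz (FT D m (ph ψ (𝔟 c))) = fun x =>
      ((ψ (differentIdeal ℤ (𝓞 K)) * (m : ℂ) ^ (Module.finrank ℚ K)) / (Ideal.absNorm (𝔟 c) : ℂ)) *
        (starRingEnd ℂ) (Ps ψ e (𝔟' c) x) := by
    intro c
    funext x
    rw [Ps_eq_rz h (h𝔟'.ne_bot c)]
    unfold rz
    split_ifs with hx
    · rw [map_zero, mul_zero]
    · rw [hFTc]
      unfold ph
      have h3 : (starRingEnd ℂ) (ind (𝔟' c) x) = ind (𝔟' c) x := by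
        unfold ind
        split_ifs <;> simp
      have h4 : (starRingEnd ℂ) (ψ (𝔟' c)) * ψ (𝔟' c) = 1 := by
        rw [mul_comm, Complex.mul_conj, Complex.normSq_eq_norm_sq, unr_norm_one h (h𝔟'.ne_bot c)]
        simp
      have h5 : ((starRingEnd ℂ) (ψ (𝔟' c)))⁻¹ = ψ (𝔟' c) := by
        rw [inv_eq_iff_eq_inv]
        exact eq_inv_of_mul_eq_one_left h4
      have h6 : (ψ (𝔟 c))⁻¹ = ψ (differentIdeal ℤ (𝓞 K)) * ψ (𝔟' c) := by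
        rw [inv_eq_iff_eq_inv]
        refine eq_inv_of_mul_eq_one_left ?_
        rw [← hψk c]
        ring
      rw [map_mul, map_inv₀, h3, h5, h6]
      ring
  have hNb : ∀ c, (Ideal.absNorm (𝔟 c) : ℂ) ≠ 0 := fun c => by
    exact_mod_cast (fun h1 => h𝔟.ne_bot c (Ideal.absNorm_eq_zero_iff.mp h1))
  have hNb'R : ∀ c, (Ideal.absNorm (𝔟' c) : ℝ) ≠ 0 := fun c => by
    exact_mod_cast (fun h1 => h𝔟'.ne_bot c (Ideal.absNorm_eq_zero_iff.mp h1))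
  have hNbR : ∀ c, (Ideal.absNorm (𝔟 c) : ℝ) ≠ 0 := fun c => by
    exact_mod_cast (fun h1 => h𝔟.ne_bot c (Ideal.absNorm_eq_zero_iff.mp h1))
  have hNdR : (Ideal.absNorm (differentIdeal ℤ (𝓞 K)) : ℝ) ≠ 0 := by
    exact_mod_cast (fun h1 => h𝔡 (Ideal.absNorm_eq_zero_iff.mp h1))
  have harg : ∀ c, t * (Ideal.absNorm (𝔟 c) : ℝ) / ((m * D : ℕ) : ℝ) ^ (Module.finrank ℚ K) =
      (Ideal.absNorm (𝔟' c) : ℝ)⁻¹ *
        (((Ideal.absNorm (differentIdeal ℤ (𝓞 K)) : ℕ) : ℝ)⁻¹ * t) := by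
    intro c
    have h3 := congrArg Ideal.absNorm (hid c)
    rw [map_mul, map_mul, absNorm_span_nat] at h3
    have h4 : ((m * D : ℕ) : ℝ) ^ (Module.finrank ℚ K) = (Ideal.absNorm (𝔟' c) : ℝ) *
        ((Ideal.absNorm (𝔟 c) : ℝ) *
          (Ideal.absNorm (differentIdeal ℤ (𝓞 K)) : ℝ)) := by exact_mod_cast h3.symm
    have h5 := hNb'R c
    have h6 := hNbR c
    rw [h4]
    field_simp
  have hbd : ∀ c x, ‖FT D m (ph ψ (𝔟 c)) x‖ ≤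
      Nat.card (𝓞 K ⧸ Ideal.span {(m : 𝓞 K)}) * 1 := fun c x =>
    norm_FT_le hm zero_le_one (ph_bdd h (h𝔟.ne_bot c)) x
  unfold FG Ftot
  rw [map_sum, Finset.mul_sum, Finset.mul_sum, ← Finset.sum_sub_distrib]
  refine Finset.sum_congr rfl fun c _ => ?_
  rw [hf_rz h.sig_le (hbd c), hrz c, hf_conj, harg c]
  have h7 := hNb c
  field_simp
  ring

end

theorem unr (hFT : S_FT) : S_UNR := by
  intro K _ _ e ψ h
  classical
  have h𝔡 : differentIdeal ℤ (𝓞 K) ≠ ⊥ := differentIdeal_ne_bot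
  obtain ⟨V, hV, hweak⟩ := fam_weak K
  obtain ⟨C, hC, hmel⟩ := mellin_Ftot K
  set m := mm (rp K) ⊤ with hm
  set D := Dd K with hD
  have hm0 : 0 < m := mm_pos rp_ne_bot top_ne_bot
  have hD0 : 0 < D := Dd_pos
  have hmm : ∀ c, (m : 𝓞 K) ∈ rp K c := fun c => by
    have := mm_mem (rp K) ⊤ c
    rwa [Ideal.mul_top] at this
  obtain ⟨P, hPf, hPg, hPk, hPε, hPf0, hPg0⟩ := hweak (rp K) reps_rp e h.sig_le h.cpx
    (fun c => ph ψ (rp K c)) 1 (fun c => ph_bdd h (rp_ne_bot c)) (fun c => ph_eqv h _) m D hm0 hD0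
    Dd_mem (fun c => ph_per (hmm c))
  choose 𝔟' h𝔟' using fun c => exists_compl (𝔣 := ⊤) (𝔟 := rp K c) (m := m) (D := D)
    (mm_mem _ _ c) Dd_mem
  have hR' : Reps 𝔟' := reps_compl top_ne_bot reps_rp (Nat.mul_pos hm0 hD0) h𝔟'
  have hid : ∀ c, 𝔟' c * (rp K c * differentIdeal ℤ (𝓞 K)) =
      Ideal.span {((m * D : ℕ) : 𝓞 K)} := by
    intro c
    have := h𝔟' c
    rwa [Ideal.mul_top] at this
  have hN : ∀ c, Nice e (Ps ψ e (rp K c)) := fun c => unr_nice h (rp_ne_bot c)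
  have hN' : ∀ c, Nice e (Ps ψ e (𝔟' c)) := fun c => unr_nice h (hR'.ne_bot c)
  set R : ℝ := ((Ideal.absNorm (differentIdeal ℤ (𝓞 K)) : ℕ) : ℝ) with hRdef
  have hR1 : 1 ≤ R := by
    rw [hRdef]
    have h4 : Ideal.absNorm (differentIdeal ℤ (𝓞 K)) ≠ 0 :=
      fun h1 => h𝔡 (Ideal.absNorm_eq_zero_iff.mp h1)
    exact_mod_cast Nat.one_le_iff_ne_zero.mpr h4
  have hR0 : 0 < R := by linarith
  have hRc : (R : ℂ) ≠ 0 := by exact_mod_cast hR0.ne'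
  have hC' : (C : ℂ) ≠ 0 := by exact_mod_cast hC.ne'
  set M := mellin (Ftot ψ e (rp K)) with hM
  have hne : ∀ s : ℂ, 1 < s.re → s ≠ 0 ∧ s ≠ 1 := by
    intro s hs
    refine ⟨?_, ?_⟩
    · rintro rfl
      norm_num at hs
    · rintro rfl
      norm_num at hs
  set E : ℂ → ℂ := fun s => s * (s - 1) * P.Λ₀ s - (s - 1) * P.f₀ + s * (P.ε * P.g₀) with hE
  have hEd : Differentiable ℂ E := by
    rw [hE]
    exact (((differentiable_id.mul (differentiable_id.sub_const 1)).mul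
      P.differentiable_Λ₀).sub ((differentiable_id.sub_const 1).mul_const _)).add
      (differentiable_id.mul_const _)
  have hEΛ : ∀ s, s ≠ 0 → s ≠ 1 → E s = s * (s - 1) * P.Λ s := by
    intro s h0 h1
    have h2 : P.Λ s = P.Λ₀ s - (1 / s) * P.f₀ - (P.ε / (1 - s)) * P.g₀ := by
      unfold WeakFEPair.Λ
      rw [hPk, smul_eq_mul, smul_eq_mul, Complex.ofReal_one]
    have h3 : 1 - s ≠ 0 := sub_ne_zero.mpr (Ne.symm h1)
    have h4 : s * (s - 1) * ((P.ε / (1 - s)) * P.g₀) = - (s * (P.ε * P.g₀)) := by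
      field_simp
      ring
    have h5 : s * (s - 1) * ((1 / s) * P.f₀) = (s - 1) * P.f₀ := by
      field_simp
    rw [hE]
    simp only
    rw [h2]
    linear_combination h5 + h4
  have hPF : (fun t => P.f t - P.f₀) = Ftot ψ e (rp K) := by
    funext t
    rw [hPf, hPf0]
    exact FF_eq h reps_rp t
  have hEs : ∀ s : ℂ, 1 < s.re → E s = s * (s - 1) * M s := by
    intro s hs
    obtain ⟨h0, h1⟩ := hne s hs
    have h2 := (P.hasMellin (s := s) (by rw [hPk]; exact hs)).2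
    rw [hPF] at h2
    rw [hEΛ s h0 h1, ← h2]
  have hMM : ∀ s : ℂ, 1 < s.re → mellin (Ftot ψ e 𝔟') s = M s := by
    intro s hs
    rw [hM, (hmel 𝔟' hR' e ψ (unr_norm_le h) hN' s hs).2,
      (hmel (rp K) reps_rp e ψ (unr_norm_le h) hN s hs).2]
  set A : ℂ := ψ (differentIdeal ℤ (𝓞 K)) * (m : ℂ) ^ (Module.finrank ℚ K) with hA
  have hPG : (fun t => P.g t - P.g₀) =
      fun t => A • (starRingEnd ℂ) (Ftot ψ e 𝔟' (R⁻¹ * t)) := by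
    funext t
    rw [hPg, hPg0, smul_eq_mul]
    exact FG_eq hFT h reps_rp hR' hm0 hD0 hmm Dd_mem hid t
  have hG : ∀ s : ℂ, 1 < s.re → P.symm.Λ s =
      A * ((R : ℂ) ^ s * (starRingEnd ℂ) (M ((starRingEnd ℂ) s))) := by
    intro s hs
    have h1 : (fun t => P.symm.f t - P.symm.f₀) =
      fun t => A • (starRingEnd ℂ) (Ftot ψ e 𝔟' (R⁻¹ * t)) := hPG
    have h2 := (P.symm.hasMellin (s := s) (by
      rw [WeakFEPair.symm_k, hPk]
      exact hs)).2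
    rw [h1] at h2
    rw [← h2, mellin_const_smul, smul_eq_mul, mellin_conj (fun t => Ftot ψ e 𝔟' (R⁻¹ * t)),
      mellin_comp_mul_left _ _ (inv_pos.mpr hR0), hMM _ (by simpa using hs), smul_eq_mul, map_mul]
    congr 2
    have h6 : (((R⁻¹ : ℝ) : ℂ)) ^ (-(starRingEnd ℂ) s) = (R : ℂ) ^ ((starRingEnd ℂ) s) := by
      rw [Complex.cpow_def_of_ne_zero (by exact_mod_cast (inv_pos.mpr hR0).ne'),
        ← Complex.ofReal_log (inv_pos.mpr hR0).le, Real.log_inv,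
        Complex.cpow_def_of_ne_zero hRc, ← Complex.ofReal_log hR0.le]
      congr 1
      push_cast
      ring
    rw [h6]
    have h7 : ((R : ℝ) : ℂ).arg ≠ Real.pi := by
      rw [Complex.arg_ofReal_of_nonneg hR0.le]
      exact Real.pi_ne_zero.symm
    have h8 := Complex.conj_cpow (R : ℂ) s h7
    rw [Complex.conj_ofReal] at h8
    exact h8.symm
  have hfe : ∀ s : ℂ, E (1 - s) =
      P.ε * A * ((R : ℂ) ^ s * (starRingEnd ℂ) (E ((starRingEnd ℂ) s))) := by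
    have hd1 : Differentiable ℂ fun s => E (1 - s) :=
      hEd.comp (differentiable_id.const_sub 1)
    have hd2 : Differentiable ℂ fun s =>
        P.ε * A * ((R : ℂ) ^ s * (starRingEnd ℂ) (E ((starRingEnd ℂ) s))) := by
      refine Differentiable.const_mul (Differentiable.mul ?_ ?_) _
      · exact differentiable_id.const_cpow (Or.inl hRc)
      · intro s
        have h1 := (hEd ((starRingEnd ℂ) s)).conj_conj
        rw [Complex.conj_conj] at h1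
        exact h1
    refine fun s => congrFun (entire_eq hd1 hd2 fun s hs => ?_) s
    obtain ⟨h0, h1⟩ := hne s hs
    have hs' : 1 < ((starRingEnd ℂ) s).re := by simpa using hs
    have h2 := P.functional_equation s
    rw [hPk, Complex.ofReal_one, smul_eq_mul, hG s hs] at h2
    have h3 : (1 : ℂ) - s ≠ 0 := sub_ne_zero.mpr (Ne.symm h1)
    have h4 : (1 : ℂ) - s ≠ 1 := by
      intro h5
      apply h0
      linear_combination -h5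
    rw [hEΛ _ h3 h4, h2, hEs _ hs', map_mul, map_mul, map_sub, map_one, Complex.conj_conj]
    ring
  have hconjR : ∀ z : ℂ, (starRingEnd ℂ) ((R : ℂ) ^ z) = (R : ℂ) ^ ((starRingEnd ℂ) z) := by
    intro z
    have h7 : ((R : ℝ) : ℂ).arg ≠ Real.pi := by
      rw [Complex.arg_ofReal_of_nonneg hR0.le]
      exact Real.pi_ne_zero.symm
    have h8 := Complex.conj_cpow (R : ℂ) ((starRingEnd ℂ) z) h7
    rw [Complex.conj_ofReal, Complex.conj_conj] at h8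
    exact h8.symm
  have hconv : ∀ s, MellinConvergent P.f_modif s := fun s =>
    (P.isStrongFEPair_toStrongFEPair.hasMellin s).1
  refine ⟨fun s => (C : ℂ)⁻¹ * ((R : ℂ) ^ (s / 2) * E s), P.ε * A * (R : ℂ) ^ (1 / 2 : ℂ),
    ?_, ?_, ?_, ?_⟩
  · refine Differentiable.const_mul (Differentiable.mul ?_ hEd) _
    exact (differentiable_id.div_const 2).const_cpow (Or.inl hRc)
  · intro s hs
    simp only
    rw [hEs s hs, hM, (hmel (rp K) reps_rp e ψ (unr_norm_le h) hN s hs).2]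
    unfold GG
    field_simp
  · intro s
    simp only
    have h5 := hfe (1 - s)
    rw [sub_sub_cancel, map_sub, map_one] at h5
    have h10 : (starRingEnd ℂ) ((C : ℂ)⁻¹) = (C : ℂ)⁻¹ := by
      rw [map_inv₀, Complex.conj_ofReal]
    rw [h5, map_mul, map_mul, hconjR, h10]
    have h6 : (starRingEnd ℂ) ((1 - (starRingEnd ℂ) s) / 2) = (1 - s) / 2 := by
      have h20 : (starRingEnd ℂ) (2 : ℂ) = 2 := map_ofNat (starRingEnd ℂ) 2
      rw [map_div₀, map_sub, map_one, Complex.conj_conj, h20]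
    rw [h6]
    have h7 : (R : ℂ) ^ (s / 2) * (R : ℂ) ^ (1 - s) = (R : ℂ) ^ (1 / 2 : ℂ) * (R : ℂ) ^ ((1 - s) / 2) := by
      rw [← Complex.cpow_add _ _ hRc, ← Complex.cpow_add _ _ hRc]
      congr 1
      ring
    linear_combination ((C : ℂ)⁻¹ * P.ε * A *
      (starRingEnd ℂ) (E (1 - (starRingEnd ℂ) s))) * h7
  · intro a b
    obtain ⟨C0, hC0⟩ := mellin_strip_bound hconv a b
    have hC0' : ∀ s : ℂ, a ≤ s.re → s.re ≤ b → ‖P.Λ₀ s‖ ≤ C0 := fun s h1 h2 => hC0 s h1 h2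
    refine ⟨‖(C : ℂ)⁻¹‖ * (R ^ (b / 2) * (|C0| + ‖P.f₀‖ + ‖P.ε * P.g₀‖)), fun s hsa hsb => ?_⟩
    simp only
    rw [norm_mul, norm_mul]
    have h5 : ‖(R : ℂ) ^ (s / 2)‖ ≤ R ^ (b / 2) := by
      rw [Complex.norm_cpow_eq_rpow_re_of_pos hR0]
      refine Real.rpow_le_rpow_of_exponent_le hR1 ?_
      have : (s / 2).re = s.re / 2 := by simp
      rw [this]
      linarith
    have h6 : ‖E s‖ ≤ (|C0| + ‖P.f₀‖ + ‖P.ε * P.g₀‖) * (1 + ‖s‖) ^ 2 := by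
      rw [hE]
      simp only
      have h7 : ‖s - 1‖ ≤ 1 + ‖s‖ := by
        refine (norm_sub_le _ _).trans ?_
        rw [norm_one, add_comm]
      have h8 : ‖P.Λ₀ s‖ ≤ |C0| := (hC0' s hsa hsb).trans (le_abs_self _)
      have h9 := norm_nonneg s
      have h10 := norm_nonneg (s - 1)
      have h11 := norm_nonneg P.f₀
      have h12 := norm_nonneg (P.ε * P.g₀)
      have h13 := abs_nonneg C0
      have h14 : ‖s * (s - 1) * P.Λ₀ s‖ ≤ |C0| * (1 + ‖s‖) ^ 2 := by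
        rw [norm_mul, norm_mul]
        calc ‖s‖ * ‖s - 1‖ * ‖P.Λ₀ s‖ ≤ (1 + ‖s‖) * (1 + ‖s‖) * |C0| := by
              gcongr
              linarith
          _ = _ := by ring
      have h15 : ‖(s - 1) * P.f₀‖ ≤ ‖P.f₀‖ * (1 + ‖s‖) ^ 2 := by
        rw [norm_mul]
        calc ‖s - 1‖ * ‖P.f₀‖ ≤ (1 + ‖s‖) * ‖P.f₀‖ := by gcongr
          _ ≤ (1 + ‖s‖) ^ 2 * ‖P.f₀‖ := by
              gcongr
              nlinarith
          _ = _ := by ring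
      have h16 : ‖s * (P.ε * P.g₀)‖ ≤ ‖P.ε * P.g₀‖ * (1 + ‖s‖) ^ 2 := by
        rw [norm_mul s]
        calc ‖s‖ * ‖P.ε * P.g₀‖ ≤ (1 + ‖s‖) ^ 2 * ‖P.ε * P.g₀‖ := by
              gcongr
              nlinarith
          _ = _ := by ring
      calc ‖s * (s - 1) * P.Λ₀ s - (s - 1) * P.f₀ + s * (P.ε * P.g₀)‖
          ≤ ‖s * (s - 1) * P.Λ₀ s‖ + ‖(s - 1) * P.f₀‖ + ‖s * (P.ε * P.g₀)‖ :=
            (norm_add_le _ _).trans (add_le_add_left (norm_sub_le _ _) _)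
        _ ≤ _ := by linarith
    calc ‖(C : ℂ)⁻¹‖ * (‖(R : ℂ) ^ (s / 2)‖ * ‖E s‖)
        ≤ ‖(C : ℂ)⁻¹‖ * (R ^ (b / 2) * ((|C0| + ‖P.f₀‖ + ‖P.ε * P.g₀‖) * (1 + ‖s‖) ^ 2)) := by
          gcongr
      _ = _ := by ring

end Pool.Agent.Y773.G.H759

namespace Pool.Agent.Y759.AR

/-- the functional equation of unramified characters, the trivial one included -/
theorem unr : Pool.Agent.Y149.AR.S_FT → Pool.Agent.Y149.AR.S_UNR := Pool.Agent.Y773.G.H759.unr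

end Pool.Agent.Y759.AR
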